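import Pool.Agent.Helper26.LU.Goals

/-! # `Ph` at a null matrix of rank one is the null equation (packet LU-E4) -/

namespace Pool.Agent.Helper33.LU

open Pool.Agent.Helper26.LU
open Polynomial

theorem mon_smul' {N : ℕ} (α : Idx N) (lam : ℂ[X]) (n : Fin 3 → ℂ) :
    mon α (fun i => lam * C (n i)) = lam ^ dg α * C (mon α n) := by
  simp only [mon, dg, map_mul, map_pow, mul_pow, pow_add]
  ring

theorem ev_smul' {N : ℕ} (b : Idx N → ℂ) (lam : ℂ[X]) (n : Fin 3 → ℂ) :
    ev (fun α : Idx N => if 2 ≤ dg α then C (b α) else (0 : ℂ[X])) (fun i => lam * C (n i)) =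
      ∑ l ∈ Finset.Icc 2 N, C (∑ α with dg α = l, b α * mon α n) * lam ^ l := by
  have h1 : ev (fun α : Idx N => if 2 ≤ dg α then C (b α) else (0 : ℂ[X]))
      (fun i => lam * C (n i)) =
      ∑ α ∈ Finset.univ.filter (fun α : Idx N => 2 ≤ dg α),
        C (b α) * (lam ^ dg α * C (mon α n)) := by
    rw [ev, Finset.sum_filter]
    refine Finset.sum_congr rfl fun α _ => ?_
    rw [mon_smul']
    split_ifs
    · rfl
    · rw [zero_mul]
  have h2 : ∀ α ∈ Finset.univ.filter (fun α : Idx N => 2 ≤ dg α), dg α ∈ Finset.Icc 2 N := by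
    intro α hα
    rw [Finset.mem_Icc]
    exact ⟨(Finset.mem_filter.1 hα).2, α.2⟩
  rw [h1, ← Finset.sum_fiberwise_of_maps_to h2]
  refine Finset.sum_congr rfl fun l hl => ?_
  rw [map_sum, Finset.sum_mul, Finset.filter_filter]
  refine Finset.sum_congr ?_ fun α hα => ?_
  · ext α
    simp only [Finset.mem_filter, Finset.mem_univ, true_and]
    constructor
    · exact fun h => h.2
    · intro h
      exact ⟨by rw [h]; exact (Finset.mem_Icc.1 hl).1, h⟩
  · rw [(Finset.mem_filter.1 hα).2, map_mul]
    ring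

theorem gE4 : G_E4 := by
  intro N M b n m
  set b' : Idx N → ℂ[X] := fun α => if 2 ≤ dg α then C (b α) else 0 with hb'
  set Z : Matrix (Fin 3) (Fin 3) ℂ[X] := Matrix.of fun i k => C (n i * m k) * X with hZ
  set a : ℕ → ℂ[X] := fun l => C (∑ α with dg α = l, b α * mon α n) with ha
  set y : Fin 4 → ℂ[X] := fun j => C (∑ k, m k * (e j k : ℂ)) * X with hy
  have hZe : ∀ j, Z.mulVec (eA ℂ[X] j) = fun i => y j * C (n i) := by
    intro j
    funext i
    simp only [Matrix.mulVec, dotProduct, hZ, Matrix.of_apply, eA, hy, Polynomial.algebraMap_apply,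
      Complex.coe_algebraMap, map_sum, map_mul, Finset.sum_mul]
    refine Finset.sum_congr rfl fun k _ => ?_
    ring
  have hev : ∀ lam : ℂ[X], ev b' (fun i => lam * C (n i)) =
      ∑ l ∈ Finset.Icc 2 N, a l * lam ^ l := fun lam => ev_smul' b lam n
  have hTi : ∀ k, Ti b' Z k = fun i => tauI N a y k * C (n i) := by
    intro k
    induction k with
    | zero =>
      funext i
      simp [Ti, tauI]
    | succ k ih =>
      have h1 : ∀ j, Z.mulVec (eA ℂ[X] j) + Ti b' Z k =
          fun i => (y j + tauI N a y k) * C (n i) := by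
        intro j
        rw [hZe, ih]
        funext i
        simp only [Pi.add_apply]
        ring
      funext i
      simp only [Ti, tauI]
      rw [mul_assoc, Finset.sum_mul]
      refine congrArg _ (Finset.sum_congr rfl fun j _ => ?_)
      rw [h1, hev, hZe]
      ring
  have hF : ∀ j, Fv M b' Z j = phN M N a y j := by
    intro j
    rw [Fv, phN, hZe, hTi]
    rw [← hev]
    congr 1
    funext i
    simp only [Pi.add_apply]
    ring
  change Ph M b' Z = Nl M N a y
  simp only [Ph, Nl, hF]

end Pool.Agent.Helper33.LU
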